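import Pool.Agent.KACG.Slopes

/-!
# Squad KACG, row S_TPQ
-/

open scoped ComplexConjugate ContDiff

noncomputable section

namespace Pool.Agent.KACG.H92

/-- **S_TPQ** -/
theorem tpq : TpqStmt := by
  intro L u hL
  have h1 : Complex.exp (Complex.I * ((Real.pi / (2 * L) * L : ℝ) : ℂ)) = Complex.I := by
    have h2 : Real.pi / (2 * L) * L = Real.pi / 2 := by
      field_simp
    rw [h2, mul_comm, Complex.exp_mul_I, ← Complex.ofReal_cos, ← Complex.ofReal_sin,
      Real.cos_pi_div_two, Real.sin_pi_div_two, Complex.ofReal_zero, Complex.ofReal_one, zero_add,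
      one_mul]
  unfold TP QP
  rw [h1]

end Pool.Agent.KACG.H92
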