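import Pool.Agent.KACG.Slopes

/-!
# Squad KACG, row S_UPP: trial functions in the wells
-/

open scoped ContDiff Topology
open MeasureTheory Filter

noncomputable section

namespace Pool.Agent.KACG.H92

/-! ## Quasi-periodic extension -/

/-- quasi-periodic extension of a function on a period -/
def ext (L a : ℝ) (F : ℝ → ℂ) (s : ℝ) : ℂ :=
  Complex.I ^ (⌊(s - a) / L⌋ : ℤ) * F (s - (⌊(s - a) / L⌋ : ℝ) * L)

theorem ext_add_int {L : ℝ} (hL : 0 < L) (a : ℝ) (F : ℝ → ℂ) (s : ℝ) (m : ℤ) :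
    ext L a F (s + m * L) = Complex.I ^ m * ext L a F s := by
  unfold ext
  have h1 : (s + m * L - a) / L = (s - a) / L + m := by
    field_simp
    ring
  rw [h1, Int.floor_add_intCast, zpow_add₀ Complex.I_ne_zero]
  have h2 : s + m * L - ((⌊(s - a) / L⌋ + m : ℤ) : ℝ) * L = s - (⌊(s - a) / L⌋ : ℝ) * L := by
    push_cast
    ring
  rw [h2]
  ring

theorem ext_add {L : ℝ} (hL : 0 < L) (a : ℝ) (F : ℝ → ℂ) (s : ℝ) :
    ext L a F (s + L) = Complex.I * ext L a F s := by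
  have h := ext_add_int hL a F s 1
  rw [Int.cast_one, one_mul, zpow_one] at h
  exact h

theorem ext_eq {L : ℝ} (hL : 0 < L) {a η : ℝ} (hηL : η ≤ L) {F : ℝ → ℂ}
    (h1 : ∀ s, s ≤ a + η → F s = 0) (h2 : ∀ s, a + L - η ≤ s → F s = 0) (s : ℝ)
    (hs1 : a - η < s) (hs2 : s < a + L + η) : ext L a F s = F s := by
  unfold ext
  by_cases c1 : s < a
  · have hf : ⌊(s - a) / L⌋ = -1 := by
      rw [Int.floor_eq_iff]
      constructor
      · rw [le_div_iff₀ hL]
        push_cast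
        linarith
      · push_cast
        rw [neg_add_cancel]
        exact div_neg_of_neg_of_pos (by linarith) hL
    rw [hf, h2 (s - ((-1 : ℤ) : ℝ) * L) (by push_cast; linarith), h1 s (by linarith), mul_zero]
  · by_cases c2 : s < a + L
    · have hf : ⌊(s - a) / L⌋ = 0 := by
        rw [Int.floor_eq_iff]
        constructor
        · push_cast
          exact div_nonneg (by linarith) hL.le
        · rw [div_lt_iff₀ hL]
          push_cast
          linarith
      rw [hf, zpow_zero, one_mul, Int.cast_zero, zero_mul, sub_zero]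
    · have hf : ⌊(s - a) / L⌋ = 1 := by
        rw [Int.floor_eq_iff]
        constructor
        · rw [le_div_iff₀ hL]
          push_cast
          linarith
        · rw [div_lt_iff₀ hL]
          push_cast
          linarith
      rw [hf, h1 (s - ((1 : ℤ) : ℝ) * L) (by push_cast; linarith), h2 s (by linarith), mul_zero]

theorem ext_ev {L : ℝ} (hL : 0 < L) {a η : ℝ} (hη : 0 < η) (hηL : η ≤ L) {F : ℝ → ℂ}
    (h1 : ∀ s, s ≤ a + η → F s = 0) (h2 : ∀ s, a + L - η ≤ s → F s = 0) (s : ℝ)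
    (hs1 : a ≤ s) (hs2 : s ≤ a + L) : ext L a F =ᶠ[𝓝 s] F := by
  have h3 : Set.Ioo (a - η) (a + L + η) ∈ 𝓝 s := Ioo_mem_nhds (by linarith) (by linarith)
  exact Filter.mem_of_superset h3 fun t ht => ext_eq hL hηL h1 h2 t ht.1 ht.2

theorem ext_smooth {L : ℝ} (hL : 0 < L) {a η : ℝ} (hη : 0 < η) (hηL : η ≤ L) {F : ℝ → ℂ}
    (h1 : ∀ s, s ≤ a + η → F s = 0) (h2 : ∀ s, a + L - η ≤ s → F s = 0)
    (hF : ContDiff ℝ ∞ F) : ContDiff ℝ ∞ (ext L a F) := by
  rw [contDiff_iff_contDiffAt]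
  intro s₀
  obtain ⟨m, hm⟩ : ∃ m : ℤ, m = ⌊(s₀ - a) / L⌋ := ⟨_, rfl⟩
  have hm1 : (m : ℝ) * L ≤ s₀ - a := by
    rw [← le_div_iff₀ hL, hm]
    exact Int.floor_le _
  have hm2 : s₀ - a < ((m : ℝ) + 1) * L := by
    rw [← div_lt_iff₀ hL, hm]
    exact Int.lt_floor_add_one _
  have h3 : ∀ s, ext L a F s = Complex.I ^ m * ext L a F (s - m * L) := by
    intro s
    have h := ext_add_int hL a F (s - m * L) m
    rw [sub_add_cancel] at h
    exact h
  have h4 : ContDiffAt ℝ ∞ (ext L a F) (s₀ - m * L) :=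
    hF.contDiffAt.congr_of_eventuallyEq
      (ext_ev hL hη hηL h1 h2 _ (by linarith) (by nlinarith))
  have h5 : ContDiffAt ℝ ∞ (fun s => Complex.I ^ m * ext L a F (s - m * L)) s₀ :=
    contDiffAt_const.mul (h4.comp s₀ (contDiffAt_id.sub contDiffAt_const))
  exact h5.congr_of_eventuallyEq (Filter.Eventually.of_forall h3)

theorem per_int {L : ℝ} (hL : 0 < L) {a : ℝ} {G G' : ℝ → ℝ} (hp : Function.Periodic G L)
    (h : ∀ s, a < s → s ≤ a + L → G s = G' s)
    (h0 : ∀ s, ¬ (a < s ∧ s ≤ a + L) → G' s = 0) :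
    ∫ s in (0 : ℝ)..L, G s = ∫ s, G' s := by
  have h1 := hp.intervalIntegral_add_eq 0 a
  rw [zero_add] at h1
  rw [h1, intervalIntegral.integral_of_le (by linarith),
    ← setIntegral_eq_integral_of_forall_compl_eq_zero (s := Set.Ioc a (a + L))
      (fun x hx => h0 x hx)]
  exact setIntegral_congr_fun measurableSet_Ioc fun x hx => h x hx.1 hx.2

theorem deriv_zero {F : ℝ → ℂ} {s : ℝ} (h : F =ᶠ[𝓝 s] fun _ => 0) : F s = 0 ∧ deriv F s = 0 := by
  refine ⟨h.eq_of_nhds, ?_⟩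
  rw [h.deriv_eq]
  exact deriv_const _ _

theorem mass_ext {L : ℝ} (hL : 0 < L) {a η : ℝ} (hη : 0 < η) (hηL : η ≤ L) {F : ℝ → ℂ}
    (h1 : ∀ s, s ≤ a + η → F s = 0) (h2 : ∀ s, a + L - η ≤ s → F s = 0) :
    mass L (ext L a F) = ∫ s, ‖F s‖ ^ 2 := by
  unfold mass
  apply per_int hL (a := a)
  · intro s
    show ‖ext L a F (s + L)‖ ^ 2 = ‖ext L a F s‖ ^ 2
    rw [ext_add hL, norm_mul, Complex.norm_I, one_mul]
  · intro s hs1 hs2
    show ‖ext L a F s‖ ^ 2 = ‖F s‖ ^ 2
    rw [ext_eq hL hηL h1 h2 s (by linarith) (by linarith)]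
  · intro s hs
    show ‖F s‖ ^ 2 = 0
    have h3 : F s = 0 := by
      by_cases c : a < s
      · exact h2 s (by
          have : ¬ s ≤ a + L := fun h => hs ⟨c, h⟩
          linarith)
      · exact h1 s (by linarith)
    rw [h3, norm_zero]
    norm_num

theorem enr_ext {L : ℝ} (hL : 0 < L) {a η : ℝ} (hη : 0 < η) (hηL : η ≤ L) {F : ℝ → ℂ}
    (h1 : ∀ s, s ≤ a + η → F s = 0) (h2 : ∀ s, a + L - η ≤ s → F s = 0) {V : ℝ → ℝ}
    (hV : Function.Periodic V L) :
    enr L V (ext L a F) = ∫ s, (‖deriv F s‖ ^ 2 + V s * ‖F s‖ ^ 2) := by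
  unfold enr
  have hd : ∀ s, deriv (ext L a F) (s + L) = Complex.I * deriv (ext L a F) s := by
    intro s
    have h3 : (fun s => ext L a F (s + L)) = fun s => Complex.I * ext L a F s :=
      funext fun s => ext_add hL a F s
    have h4 := deriv_comp_add_const (ext L a F) L s
    rw [h3] at h4
    rw [← h4, deriv_const_mul_field]
  apply per_int hL (a := a)
  · intro s
    show ‖deriv (ext L a F) (s + L)‖ ^ 2 + V (s + L) * ‖ext L a F (s + L)‖ ^ 2 = _
    rw [ext_add hL, hd, norm_mul, norm_mul, Complex.norm_I, one_mul, one_mul, hV s]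
  · intro s hs1 hs2
    show ‖deriv (ext L a F) s‖ ^ 2 + V s * ‖ext L a F s‖ ^ 2 = _
    have h3 := ext_ev hL hη hηL h1 h2 s hs1.le hs2
    rw [h3.deriv_eq, h3.eq_of_nhds]
  · intro s hs
    show ‖deriv F s‖ ^ 2 + V s * ‖F s‖ ^ 2 = 0
    have h3 : F =ᶠ[𝓝 s] fun _ => 0 := by
      by_cases c : a < s
      · have h4 : ¬ s ≤ a + L := fun h => hs ⟨c, h⟩
        have h5 : Set.Ioi (a + L - η) ∈ 𝓝 s := Ioi_mem_nhds (by linarith)
        exact Filter.mem_of_superset h5 fun t ht => h2 t (le_of_lt ht)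
      · have h5 : Set.Iio (a + η) ∈ 𝓝 s := Iio_mem_nhds (by linarith)
        exact Filter.mem_of_superset h5 fun t ht => h1 t (le_of_lt ht)
    obtain ⟨h4, h5⟩ := deriv_zero h3
    rw [h4, h5, norm_zero]
    norm_num

/-! ## Constants -/

theorem exists_v {W m e : ℝ} (h : m * W < e) : ∃ v, W < v ∧ m * v < e := by
  have h0 : 0 < 2 * (|m| + 1) := by positivity
  obtain ⟨t, ht⟩ : ∃ t, t = (e - m * W) / (2 * (|m| + 1)) := ⟨_, rfl⟩
  have ht0 : 0 < t := by
    rw [ht]
    exact div_pos (by linarith) h0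
  have ht1 : t * (2 * (|m| + 1)) = e - m * W := by
    rw [ht]
    exact div_mul_cancel₀ _ h0.ne'
  refine ⟨W + t, by linarith, ?_⟩
  have h1 : m * t ≤ |m| * t := mul_le_mul_of_nonneg_right (le_abs_self m) ht0.le
  have h2 : 0 ≤ |m| * t := by positivity
  nlinarith

/-- the sum of orthogonal terms -/
theorem norm_sum_sq {ι : Type} [Fintype ι] (z : ι → ℂ) (h : ∀ i j, i ≠ j → z i = 0 ∨ z j = 0) :
    ‖∑ i, z i‖ ^ 2 = ∑ i, ‖z i‖ ^ 2 := by
  classical
  by_cases h0 : ∃ i, z i ≠ 0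
  · obtain ⟨i, hi⟩ := h0
    have h1 : ∀ j, j ≠ i → z j = 0 := fun j hj => (h j i hj).resolve_right hi
    rw [Finset.sum_eq_single i (fun j _ hj => h1 j hj) (fun h => absurd (Finset.mem_univ i) h),
      Finset.sum_eq_single i (fun j _ hj => by rw [h1 j hj, norm_zero]; norm_num)
        (fun h => absurd (Finset.mem_univ i) h)]
  · have h1 : ∀ i, z i = 0 := by
      intro i
      by_contra h
      exact h0 ⟨i, h⟩
    rw [Finset.sum_eq_zero fun i _ => h1 i, Finset.sum_eq_zero fun i _ => by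
      rw [h1 i, norm_zero]; norm_num]
    norm_num

theorem well_const {κ : ℝ → ℝ} {c q v : ℝ} (hκ : DifferentiableAt ℝ κ q) (hc : κ q = c)
    (hv : |deriv κ q| < v) : ∃ ε : ℝ, 0 < ε ∧ ∀ s, |s - q| < ε → |κ s - c| ≤ v * |s - q| := by
  have h1 := (Asymptotics.isLittleO_iff.1 hκ.hasDerivAt.isLittleO)
    (show 0 < v - |deriv κ q| by linarith)
  obtain ⟨ε, hε, h2⟩ := Metric.eventually_nhds_iff.1 h1
  refine ⟨ε, hε, ?_⟩
  intro s hs
  have h3 := h2 (show dist s q < ε by rw [Real.dist_eq]; exact hs)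
  rw [Real.norm_eq_abs, Real.norm_eq_abs, smul_eq_mul] at h3
  have h4 : κ s - c = (κ s - κ q - (s - q) * deriv κ q) + (s - q) * deriv κ q := by
    rw [hc]
    ring
  rw [h4]
  refine (abs_add_le _ _).trans ?_
  rw [abs_mul (s - q)]
  nlinarith

/-- change of variables -/
theorem int_scale {b : ℝ} (hb : 0 < b) (q : ℝ) (G : ℝ → ℝ) :
    ∫ s, G (b * (s - q)) = b⁻¹ * ∫ y, G y := by
  rw [integral_sub_right_eq_self (fun s => G (b * s)) q,
    Measure.integral_comp_mul_left G b, abs_of_pos (inv_pos.2 hb), smul_eq_mul]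

theorem ev_small {P : ℝ → Prop} {ε : ℝ} (hε : 0 < ε) (h : ∀ δ, 0 < δ → δ < ε → P δ) :
    ∀ᶠ δ in 𝓝[>] (0 : ℝ), P δ :=
  Filter.mem_of_superset (Ioo_mem_nhdsGT hε) fun δ hδ => h δ hδ.1 hδ.2

/-- **S_UPP** -/
theorem upp (hou : HouStmt) : UppStmt := by
  intro L κ c a r p hW e n he hn
  classical
  have hL := hW.pos
  have hκd : Differentiable ℝ κ := hW.sm.differentiable (by norm_num)
  -- the slopes
  have hv : ∀ i, ∃ v, |deriv κ (p i)| < v ∧ (2 * (n i : ℝ) - 1) * v < e := fun i =>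
    exists_v (hn i)
  choose v hv1 hv2 using hv
  have hv0 : ∀ i, 0 < v i := fun i => lt_of_le_of_lt (abs_nonneg _) (hv1 i)
  have hφ := fun i => hou (v i) e (n i) (hv0 i) (hv2 i)
  choose φ hφ1 hφ2 using hφ
  -- the size of the wells
  obtain ⟨δ, hδ, hδ0⟩ : ∃ δ : ℝ, (δ ≤ L ∧ ∀ i, (a + 2 * δ ≤ p i ∧ p i + 2 * δ ≤ a + L) ∧
      (∀ s, |s - p i| < δ → |κ s - c| ≤ v i * |s - p i|) ∧
      ∀ j, i ≠ j → 2 * δ ≤ |p i - p j|) ∧ 0 < δ := by
    have h1 : ∀ᶠ δ in 𝓝[>] (0 : ℝ), δ ≤ L ∧ ∀ i, (a + 2 * δ ≤ p i ∧ p i + 2 * δ ≤ a + L) ∧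
        (∀ s, |s - p i| < δ → |κ s - c| ≤ v i * |s - p i|) ∧
        ∀ j, i ≠ j → 2 * δ ≤ |p i - p j| := by
      refine Filter.Eventually.and (ev_small hL fun δ _ h => h.le) ?_
      rw [Filter.eventually_all]
      intro i
      have hp1 := (hW.mem i).1
      have hp2 := (hW.mem i).2
      refine Filter.Eventually.and ?_ (Filter.Eventually.and ?_ ?_)
      · refine Filter.Eventually.and
          (ev_small (show 0 < (p i - a) / 2 by linarith) fun δ _ h => by linarith)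
          (ev_small (show 0 < (a + L - p i) / 2 by linarith) fun δ _ h => by linarith)
      · obtain ⟨ε, hε, h⟩ := well_const (hκd (p i)) (hW.val i) (hv1 i)
        exact ev_small hε fun δ _ hδε s hs => h s (by linarith)
      · rw [Filter.eventually_all]
        intro j
        by_cases hij : i = j
        · exact Filter.Eventually.of_forall fun δ h => absurd hij h
        · have h0 : 0 < |p i - p j| := abs_pos.2 (sub_ne_zero.2 fun h => hij (hW.inj h))
          exact ev_small (show 0 < |p i - p j| / 2 by linarith) fun δ _ h _ => by linarith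
    exact (h1.and self_mem_nhdsWithin).exists
  obtain ⟨hδL, hδ⟩ := hδ
  -- the supports
  obtain ⟨R, hR, hR0⟩ : ∃ R : ℝ, (∀ i (k : Fin (n i)) x, R ≤ |x| →
      φ i k =ᶠ[𝓝 x] fun _ => 0) ∧ 0 < R := by
    have h1 : ∀ᶠ R in (atTop : Filter ℝ), ∀ i (k : Fin (n i)) x, R ≤ |x| →
        φ i k =ᶠ[𝓝 x] fun _ => 0 := by
      rw [Filter.eventually_all]
      intro i
      rw [Filter.eventually_all]
      intro k
      obtain ⟨C, hC⟩ := (hφ1 i k).2.isCompact.isBounded.exists_norm_le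
      filter_upwards [Filter.eventually_ge_atTop (C + 1)] with R hRC x hx
      have h2 : x ∉ tsupport (φ i k) := by
        intro h3
        have h4 := hC x h3
        rw [Real.norm_eq_abs] at h4
        linarith
      exact notMem_tsupport_iff_eventuallyEq.1 h2
    exact (h1.and (Filter.eventually_gt_atTop 0)).exists
  refine ⟨(R / δ) ^ 4 + 1, by positivity, ?_⟩
  intro g hg
  have hg0 : 0 < g := lt_of_lt_of_le (by positivity) hg
  obtain ⟨b, hb⟩ : ∃ b, b = Real.sqrt (Real.sqrt g) := ⟨_, rfl⟩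
  have hb0 : 0 < b := by
    rw [hb]
    exact Real.sqrt_pos.2 (Real.sqrt_pos.2 hg0)
  have hb2 : b ^ 2 = Real.sqrt g := by
    rw [hb]
    exact Real.sq_sqrt (Real.sqrt_nonneg _)
  have hb4 : b ^ 4 = g := by
    have h1 : b ^ 4 = (b ^ 2) ^ 2 := by ring
    rw [h1, hb2]
    exact Real.sq_sqrt hg0.le
  have hbR : R ≤ b * δ := by
    by_contra h1
    have h2 : b < R / δ := by
      rw [lt_div_iff₀ hδ0]
      linarith
    have h3 : b ^ 4 < (R / δ) ^ 4 := pow_lt_pow_left₀ h2 hb0.le (by norm_num)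
    linarith
  have hfar : ∀ i s, δ ≤ |s - p i| → R ≤ |b * (s - p i)| := by
    intro i s hs
    rw [abs_mul, abs_of_pos hb0]
    exact hbR.trans (mul_le_mul_of_nonneg_left hs hb0.le)
  have hleft : ∀ i s, s ≤ a + δ → δ ≤ |s - p i| := by
    intro i s hs
    have h1 := (hδ i).1.1
    rw [abs_sub_comm]
    exact le_trans (by linarith) (le_abs_self _)
  have hright : ∀ i s, a + L - δ ≤ s → δ ≤ |s - p i| := by
    intro i s hs
    have h1 := (hδ i).1.2
    exact le_trans (by linarith) (le_abs_self _)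
  obtain ⟨F, hF⟩ : ∃ F : (Σ i, Fin (n i)) → ℝ → ℂ, F = fun j s =>
      ((φ j.1 j.2 (b * (s - p j.1)) : ℝ) : ℂ) := ⟨_, rfl⟩
  have hFz : ∀ j s, δ ≤ |s - p j.1| → F j s = 0 := by
    intro j s hs
    rw [hF]
    have h1 := (hR j.1 j.2 _ (hfar j.1 s hs)).eq_of_nhds
    show ((φ j.1 j.2 (b * (s - p j.1)) : ℝ) : ℂ) = 0
    rw [h1, Complex.ofReal_zero]
  have hFs : ∀ j, ContDiff ℝ ∞ (F j) := by
    intro j
    rw [hF]
    exact Complex.ofRealCLM.contDiff.comp ((hφ1 j.1 j.2).1.comp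
      (contDiff_const.mul (contDiff_id.sub contDiff_const)))
  refine ⟨fun j => ext L a (F j), fun j => ⟨ext_smooth hL hδ0 hδL
    (fun s hs => hFz j s (hleft _ s hs)) (fun s hs => hFz j s (hright _ s hs)) (hFs j),
    ext_add hL a _⟩, ?_⟩
  intro d hd
  obtain ⟨H, hH⟩ : ∃ H : Fin r → ℝ → ℂ, H = fun i x => ∑ k, d ⟨i, k⟩ * (φ i k x : ℂ) := ⟨_, rfl⟩
  have hHs : ∀ i, ContDiff ℝ ∞ (H i) := by
    intro i
    rw [hH]
    exact ContDiff.sum fun k _ => contDiff_const.mul
      (Complex.ofRealCLM.contDiff.comp (hφ1 i k).1)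
  have hHz : ∀ i x, R ≤ |x| → H i =ᶠ[𝓝 x] fun _ => 0 := by
    intro i x hx
    have h1 : ∀ᶠ y in 𝓝 x, ∀ k, φ i k y = 0 := by
      rw [Filter.eventually_all]
      exact fun k => hR i k x hx
    refine h1.mono fun y hy => ?_
    rw [hH]
    show ∑ k, d ⟨i, k⟩ * (φ i k y : ℂ) = 0
    exact Finset.sum_eq_zero fun k _ => by rw [hy k, Complex.ofReal_zero, mul_zero]
  obtain ⟨f, hf⟩ : ∃ f : ℝ → ℂ, f = fun s => ∑ i, H i (b * (s - p i)) := ⟨_, rfl⟩
  have hsum : (fun s => ∑ j, d j * ext L a (F j) s) = ext L a f := by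
    funext s
    unfold ext
    rw [Fintype.sum_sigma, hf, hF, hH]
    simp only [Finset.mul_sum]
    refine Finset.sum_congr rfl fun i _ => Finset.sum_congr rfl fun k _ => ?_
    ring
  have hHv : ∀ i x, R ≤ |x| → H i x = 0 ∧ deriv (H i) x = 0 := fun i x hx =>
    deriv_zero (hHz i x hx)
  have hf1 : ∀ s, s ≤ a + δ → f s = 0 := by
    intro s hs
    rw [hf]
    exact Finset.sum_eq_zero fun i _ => (hHv i _ (hfar i s (hleft i s hs))).1
  have hf2 : ∀ s, a + L - δ ≤ s → f s = 0 := by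
    intro s hs
    rw [hf]
    exact Finset.sum_eq_zero fun i _ => (hHv i _ (hfar i s (hright i s hs))).1
  have hpotp : Function.Periodic (pot κ c g) L := by
    intro s
    show g * (κ (s + L) - c) ^ 2 = g * (κ s - c) ^ 2
    rw [hW.per s]
  show enr L (pot κ c g) (fun s => ∑ j, d j * ext L a (F j) s) <
    e * Real.sqrt g * mass L (fun s => ∑ j, d j * ext L a (F j) s)
  rw [hsum, enr_ext hL hδ0 hδL hf1 hf2 hpotp, mass_ext hL hδ0 hδL hf1 hf2]
  -- pointwise formulas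
  have hsep : ∀ s i j, i ≠ j → δ ≤ |s - p i| ∨ δ ≤ |s - p j| := by
    intro s i j hij
    by_contra h
    rw [not_or, not_le, not_le] at h
    have h1 := (hδ i).2.2 j hij
    have h2 : |p i - p j| ≤ |s - p j| + |s - p i| := by
      have h3 : p i - p j = (s - p j) - (s - p i) := by ring
      rw [h3]
      exact abs_sub _ _
    linarith [h.1, h.2]
  have hA : ∀ s, ‖f s‖ ^ 2 = ∑ i, ‖H i (b * (s - p i))‖ ^ 2 := by
    intro s
    rw [hf]
    refine norm_sum_sq _ fun i j hij => ?_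
    rcases hsep s i j hij with h | h
    · exact Or.inl (hHv i _ (hfar i s h)).1
    · exact Or.inr (hHv j _ (hfar j s h)).1
  have hD : ∀ s, deriv f s = ∑ i, b • deriv (H i) (b * (s - p i)) := by
    intro s
    have h1 : ∀ i, HasDerivAt (fun s => H i (b * (s - p i))) (b • deriv (H i) (b * (s - p i))) s := by
      intro i
      have h2 : HasDerivAt (H i) (deriv (H i) (b * (s - p i))) (b * (s - p i)) :=
        ((hHs i).differentiable (by norm_num) _).hasDerivAt
      have h3 : HasDerivAt (fun s : ℝ => b * (s - p i)) b s := by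
        have h4 := ((hasDerivAt_id s).sub_const (p i)).const_mul b
        rw [mul_one] at h4
        exact h4
      exact h2.scomp s h3
    have h2 := HasDerivAt.fun_sum (u := Finset.univ) fun i _ => h1 i
    rw [hf]
    exact h2.deriv
  have hB : ∀ s, ‖deriv f s‖ ^ 2 = ∑ i, b ^ 2 * ‖deriv (H i) (b * (s - p i))‖ ^ 2 := by
    intro s
    rw [hD, norm_sum_sq]
    · refine Finset.sum_congr rfl fun i _ => ?_
      rw [norm_smul, Real.norm_eq_abs, abs_of_pos hb0]
      ring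
    · intro i j hij
      rcases hsep s i j hij with h | h
      · left
        rw [(hHv i _ (hfar i s h)).2, smul_zero]
      · right
        rw [(hHv j _ (hfar j s h)).2, smul_zero]
  -- integrability
  have hcpt : ∀ G : ℝ → ℝ, Continuous G → (∀ x, R ≤ |x| → G x = 0) → Integrable G := by
    intro G hG hz
    apply hG.integrable_of_hasCompactSupport
    apply HasCompactSupport.intro (isCompact_Icc (a := -R) (b := R))
    intro x hx
    apply hz
    by_contra h
    rw [not_le, abs_lt] at h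
    exact hx ⟨h.1.le, h.2.le⟩
  have hHc : ∀ i, Continuous (H i) := fun i => (hHs i).continuous
  have hHd : ∀ i, Continuous (deriv (H i)) := fun i => (hHs i).continuous_deriv (by norm_num)
  have hM : ∀ i, Integrable (fun y => ‖H i y‖ ^ 2) := by
    intro i
    apply hcpt _ ((hHc i).norm.pow 2)
    intro x hx
    show ‖H i x‖ ^ 2 = 0
    rw [(hHv i x hx).1, norm_zero]
    norm_num
  have hQ : ∀ i, Integrable (fun y => ‖deriv (H i) y‖ ^ 2 + v i ^ 2 * y ^ 2 * ‖H i y‖ ^ 2) := by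
    intro i
    apply hcpt _ (((hHd i).norm.pow 2).add ((continuous_const.mul (continuous_id.pow 2)).mul
      ((hHc i).norm.pow 2)))
    intro x hx
    show ‖deriv (H i) x‖ ^ 2 + v i ^ 2 * x ^ 2 * ‖H i x‖ ^ 2 = 0
    rw [(hHv i x hx).1, (hHv i x hx).2, norm_zero]
    norm_num
  have hpotc : Continuous (pot κ c g) :=
    continuous_const.mul ((hW.sm.continuous.sub continuous_const).pow 2)
  have hlin : ∀ i, Continuous fun s : ℝ => b * (s - p i) := fun i =>
    continuous_const.mul (continuous_id.sub continuous_const)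
  have hG : ∀ i, Integrable (fun s => b ^ 2 * ‖deriv (H i) (b * (s - p i))‖ ^ 2 +
      pot κ c g s * ‖H i (b * (s - p i))‖ ^ 2) := by
    intro i
    apply Continuous.integrable_of_hasCompactSupport
    · exact (continuous_const.mul (((hHd i).comp (hlin i)).norm.pow 2)).add
        (hpotc.mul (((hHc i).comp (hlin i)).norm.pow 2))
    · apply HasCompactSupport.intro (isCompact_Icc (a := p i - δ) (b := p i + δ))
      intro s hs
      have h1 : δ ≤ |s - p i| := by
        by_contra h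
        rw [not_le, abs_lt] at h
        exact hs ⟨by linarith [h.1], by linarith [h.2]⟩
      have h2 := hHv i _ (hfar i s h1)
      show b ^ 2 * ‖deriv (H i) (b * (s - p i))‖ ^ 2 +
        pot κ c g s * ‖H i (b * (s - p i))‖ ^ 2 = 0
      rw [h2.1, h2.2, norm_zero]
      norm_num
  -- the mass
  have hmass : ∫ s, ‖f s‖ ^ 2 = b⁻¹ * ∑ i, ∫ y, ‖H i y‖ ^ 2 := by
    simp only [hA]
    rw [integral_finset_sum _ fun i _ => ((hM i).comp_mul_left' hb0.ne').comp_sub_right (p i),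
      Finset.mul_sum]
    exact Finset.sum_congr rfl fun i _ => int_scale hb0 (p i) fun y => ‖H i y‖ ^ 2
  -- the energy
  have henr : ∫ s, (‖deriv f s‖ ^ 2 + pot κ c g s * ‖f s‖ ^ 2) ≤
      b ^ 2 * (b⁻¹ * ∑ i, ho (v i) (H i)) := by
    have h1 : ∀ s, ‖deriv f s‖ ^ 2 + pot κ c g s * ‖f s‖ ^ 2 =
        ∑ i, (b ^ 2 * ‖deriv (H i) (b * (s - p i))‖ ^ 2 +
          pot κ c g s * ‖H i (b * (s - p i))‖ ^ 2) := by
      intro s
      rw [hA, hB, Finset.mul_sum, ← Finset.sum_add_distrib]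
    simp only [h1]
    rw [integral_finset_sum _ fun i _ => hG i, Finset.mul_sum, Finset.mul_sum]
    apply Finset.sum_le_sum
    intro i _
    have h2 : b ^ 2 * (b⁻¹ * ho (v i) (H i)) = ∫ s, b ^ 2 * (‖deriv (H i) (b * (s - p i))‖ ^ 2 +
        v i ^ 2 * (b * (s - p i)) ^ 2 * ‖H i (b * (s - p i))‖ ^ 2) := by
      rw [integral_const_mul]
      congr 1
      exact (int_scale hb0 (p i) fun y => ‖deriv (H i) y‖ ^ 2 +
        v i ^ 2 * y ^ 2 * ‖H i y‖ ^ 2).symm
    rw [h2]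
    apply integral_mono (hG i)
      ((((hQ i).comp_mul_left' hb0.ne').comp_sub_right (p i)).const_mul (b ^ 2))
    intro s
    show b ^ 2 * ‖deriv (H i) (b * (s - p i))‖ ^ 2 + pot κ c g s * ‖H i (b * (s - p i))‖ ^ 2 ≤
      b ^ 2 * (‖deriv (H i) (b * (s - p i))‖ ^ 2 +
        v i ^ 2 * (b * (s - p i)) ^ 2 * ‖H i (b * (s - p i))‖ ^ 2)
    by_cases hs : δ ≤ |s - p i|
    · have h3 := hHv i _ (hfar i s hs)
      rw [h3.1, h3.2, norm_zero]
      norm_num
    · have h3 := (hδ i).2.1 s (not_le.1 hs)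
      have h4 : (κ s - c) ^ 2 ≤ v i ^ 2 * (s - p i) ^ 2 := by
        have h5 : |κ s - c| ^ 2 ≤ (v i * |s - p i|) ^ 2 :=
          pow_le_pow_left₀ (abs_nonneg _) h3 2
        rw [sq_abs, mul_pow, sq_abs] at h5
        exact h5
      have h5 : pot κ c g s ≤ b ^ 2 * (v i ^ 2 * (b * (s - p i)) ^ 2) := by
        have h6 : g * (κ s - c) ^ 2 ≤ g * (v i ^ 2 * (s - p i) ^ 2) :=
          mul_le_mul_of_nonneg_left h4 hg0.le
        calc pot κ c g s = g * (κ s - c) ^ 2 := rfl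
          _ ≤ g * (v i ^ 2 * (s - p i) ^ 2) := h6
          _ = b ^ 2 * (v i ^ 2 * (b * (s - p i)) ^ 2) := by
            rw [← hb4]
            ring
      have h6 := mul_le_mul_of_nonneg_right h5 (sq_nonneg ‖H i (b * (s - p i))‖)
      linarith [show b ^ 2 * (‖deriv (H i) (b * (s - p i))‖ ^ 2 +
        v i ^ 2 * (b * (s - p i)) ^ 2 * ‖H i (b * (s - p i))‖ ^ 2) =
        b ^ 2 * ‖deriv (H i) (b * (s - p i))‖ ^ 2 +
        b ^ 2 * (v i ^ 2 * (b * (s - p i)) ^ 2) * ‖H i (b * (s - p i))‖ ^ 2 by ring]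
  -- the oscillators
  have hlt : ∑ i, ho (v i) (H i) < ∑ i, e * ∫ y, ‖H i y‖ ^ 2 := by
    have h1 : ∀ i, (fun k => d ⟨i, k⟩) ≠ 0 → ho (v i) (H i) < e * ∫ y, ‖H i y‖ ^ 2 := by
      intro i hi
      have h2 := hφ2 i _ hi
      rw [hH]
      exact h2
    obtain ⟨j, hj⟩ : ∃ j, d j ≠ 0 := by
      by_contra h
      apply hd
      funext j
      by_contra h2
      exact h ⟨j, h2⟩
    apply Finset.sum_lt_sum
    · intro i _
      by_cases hi : (fun k => d ⟨i, k⟩) = 0
      · have h2 : H i = fun _ => 0 := by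
          rw [hH]
          funext x
          refine Finset.sum_eq_zero fun k _ => ?_
          have h3 : d ⟨i, k⟩ = 0 := congrFun hi k
          rw [h3, zero_mul]
        rw [h2]
        unfold ho
        simp
      · exact (h1 i hi).le
    · refine ⟨j.1, Finset.mem_univ _, h1 j.1 fun h => hj ?_⟩
      exact congrFun h j.2
  rw [hmass, ← hb2]
  refine lt_of_le_of_lt henr ?_
  have h1 : e * b ^ 2 * (b⁻¹ * ∑ i, ∫ y, ‖H i y‖ ^ 2) =
      b ^ 2 * (b⁻¹ * ∑ i, e * ∫ y, ‖H i y‖ ^ 2) := by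
    rw [← Finset.mul_sum]
    ring
  rw [h1]
  exact mul_lt_mul_of_pos_left (mul_lt_mul_of_pos_left hlt (inv_pos.2 hb0)) (by positivity)

end Pool.Agent.KACG.H92
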